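import Pool.Agent.V8H22.IW.P8

/-!
# Ingham's lower bounds for the oscillation of the summatory Liouville function hold in every window `[X, X^(1+δ)]`

`L(x) = ∑_{n ≤ x} λ(n)`. For real `γ ≠ 0` let `c(γ) = ζ(2ρ) / (ρ ζ'(ρ))` if `ρ = 1/2 + iγ` is a simple zero of the zeta
function and `c(γ) = 0` otherwise; `c(0) = 1/ζ(1/2)`. For `T > 0` let `h_T(v) = ∑_{|γ| < T} (1 - |γ|/T) c(γ) e^{iγv}`
(a finite sum). Ingham (1942) proved `liminf L(x)/√x ≤ h_T(v) ≤ limsup L(x)/√x`; the known explicit bounds for the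
oscillation of `L(x)/√x` come from this inequality. We prove unconditionally that these values are reached (up to any
`ε > 0`) in **every** window `[X, X^(1+δ)]`, `δ > 0`, `X` large, and this for arbitrary positive definite weights.

For the proof see `MertensInghamWindows`.
-/

set_option autoImplicit false

open Filter Topology Set

namespace Pool.Agent.Results.MP_a499ba_nt.LiouvilleInghamWindows

open scoped ComplexConjugate

/-- The summatory function `L(x) = ∑_{n ≤ x} λ(n)` of the Liouville function. -/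
noncomputable def L (x : ℝ) : ℝ :=
  ∑ n ∈ Finset.Icc 1 ⌊x⌋₊, ((ArithmeticFunction.liouville n : ℤ) : ℝ)

/-- `c(0) = 1/ζ(1/2)`; for `γ ≠ 0`: `c(γ) = ζ(2ρ) / (ρ ζ'(ρ))` if `ρ = 1/2 + iγ` is a zero of `ζ` (this is `0` for a
multiple zero), and `0` if it is not. -/
noncomputable def c (γ : ℝ) : ℂ :=
  open Classical in
  if γ = 0 then 1 / riemannZeta (1 / 2)
  else if riemannZeta (1 / 2 + γ * Complex.I) = 0 then
    riemannZeta (1 + 2 * γ * Complex.I) /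
      ((1 / 2 + γ * Complex.I) * deriv riemannZeta (1 / 2 + γ * Complex.I)) else 0

/-- Positive definite functions on the real line (no continuity is required). -/
def PosDef (g : ℝ → ℂ) : Prop :=
  ∀ (S : Finset ℝ) (a : ℝ → ℂ), ∃ r : ℝ, 0 ≤ r ∧
    ∑ x ∈ S, ∑ y ∈ S, a x * conj (a y) * g (x - y) = (r : ℂ)

/-- Ingham's sums `h_T(v) = ∑_{|γ| < T} (1 - |γ|/T) c(γ) e^{iγv}`. -/
noncomputable def h (T v : ℝ) : ℝ :=
  (∑' γ : ℝ, ((max (1 - |γ| / T) 0 : ℝ) : ℂ) * Complex.exp (γ * v * Complex.I) * c γ).re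

/-- **Main theorem.** -/
theorem result :
    -- arbitrary positive definite weights
    (∀ g : ℝ → ℂ, PosDef g → g 0 = 1 → Summable (fun γ : ℝ => g γ * c γ) →
      ∀ δ κ s : ℝ, 0 < δ → (s = 1 ∨ s = -1) → κ < s * (∑' γ : ℝ, g γ * c γ).re →
      ∀ᶠ X : ℝ in atTop, ∃ x ∈ Icc X (X ^ (1 + δ)), κ * √x < s * L x) ∧
    -- Ingham's sums
    (∀ T : ℝ, {γ : ℝ | |γ| < T ∧ c γ ≠ 0}.Finite) ∧
    (∀ T v δ ε : ℝ, 0 < T → 0 < δ → 0 < ε → ∀ᶠ X : ℝ in atTop,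
      (∃ x ∈ Icc X (X ^ (1 + δ)), (h T v - ε) * √x < L x) ∧
      (∃ x ∈ Icc X (X ^ (1 + δ)), L x < (h T v + ε) * √x)) ∧
    -- one zero
    (∀ γ δ ε s : ℝ, 0 < γ → 0 < δ → 0 < ε → (s = 1 ∨ s = -1) →
      ∀ᶠ X : ℝ in atTop, ∃ x ∈ Icc X (X ^ (1 + δ)),
        (s * (c 0).re + ‖c γ‖ - ε) * √x < s * L x) := by
  refine ⟨fun g hg hg0 hsum δ κ s h0 hs hκ => ?_, Pool.Agent.V8H22.IW.cL_finite,
    fun T v δ ε hT h0 hε => ?_, fun γ δ ε s hγ h0 hε hs => ?_⟩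
  · exact Pool.Agent.V8H22.IW.final1 Pool.Agent.V8H22.IW.la_MD
      Pool.Agent.V8H22.IW.la_D0 Pool.Agent.V8H22.IW.cf_L hg hg0 hsum h0 hs hκ
  · exact Pool.Agent.V8H22.IW.final2 Pool.Agent.V8H22.IW.la_MD
      Pool.Agent.V8H22.IW.la_D0 Pool.Agent.V8H22.IW.cf_L
      Pool.Agent.V8H22.IW.cL_finite v hT h0 hε
  · exact Pool.Agent.V8H22.IW.final3 Pool.Agent.V8H22.IW.la_MD
      Pool.Agent.V8H22.IW.la_D0 Pool.Agent.V8H22.IW.aL_conj
      Pool.Agent.V8H22.IW.dL_conj Pool.Agent.V8H22.IW.cf_L hγ h0 hε hs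

end Pool.Agent.Results.MP_a499ba_nt.LiouvilleInghamWindows
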