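import Pool.Agent.V8H22.OSC.Z7

/-!
# Oscillation of the summatory function of the Liouville function in the windows `[X, X (log X)^C]`

`L(u) = ∑_{n ≤ u} λ(n)`, `F(u) = u^(1/2) (log log log u)^(5/4)`. The mean value of `L(u)/√u` (in the logarithmic scale,
if it exists) is `1/ζ(1/2) = -0.68...`. Unconditionally:

1. For either sign `s` there are constants `c, δ, C > 0` such that for all large `X` there is `u` with
   `X / (log X)^C ≤ u ≤ X (log X)^C` and `s (L(u) - √u / ζ(1/2)) ≥ c √u max(u/X, X/u)^δ`.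
2. There are constants `c, C > 0` such that for all large `X` the interval `[X, X (log X)^C]` contains `u₁`, `u₂`
   with `L(u₁) ≥ √u₁ / ζ(1/2) + c √u₁` and `L(u₂) ≤ √u₂ / ζ(1/2) - c √u₂`.
3. If `s L(u) ≤ K F(u)` for all large `u` (one half of what Q2 asks), then for some `c, C > 0` and all large `X` there
   is `u` with `X ≤ u ≤ X (log log log X)^C` and `s (L(u) - √u / ζ(1/2)) ≥ c √u`.

The proof is that of the hand-in `MertensShortWindows` (about the other function `M(u)` of the problem) for the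
function `L(e^v) e^(-v/2) - 1/ζ(1/2)`, `v ≥ 0`, with Laplace transform
`ζ(2z+1) / ((z+1/2) ζ(z+1/2)) - 1/(ζ(1/2) z)`, which is holomorphic at `z = 0`.
-/

set_option autoImplicit false

open Filter Topology Set

namespace Pool.Agent.Results.MP_a499ba_nt.LiouvilleShortWindows

/-- The summatory function `L(u) = ∑_{n ≤ u} λ(n)` of the Liouville function. -/
noncomputable def L (u : ℝ) : ℝ :=
  ∑ n ∈ Finset.Icc 1 ⌊u⌋₊, ((ArithmeticFunction.liouville n : ℤ) : ℝ)

/-- `F(u) = u^(1/2) (log log log u)^(5/4)`. -/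
noncomputable def F (u : ℝ) : ℝ := u ^ (1 / 2 : ℝ) * Real.log (Real.log (Real.log u)) ^ (5 / 4 : ℝ)

/-- The real number `ζ(1/2)`. -/
noncomputable def zetaHalf : ℝ := (riemannZeta (1 / 2)).re

/-- **Main theorem.** -/
theorem result :
    (riemannZeta (1 / 2) = (zetaHalf : ℂ) ∧ zetaHalf ≠ 0) ∧
    (∀ s : ℝ, s = 1 ∨ s = -1 → ∃ c δ C : ℝ, 0 < c ∧ 0 < δ ∧ 0 < C ∧ ∀ᶠ X : ℝ in atTop, ∃ u : ℝ,
      X / Real.log X ^ C ≤ u ∧ u ≤ X * Real.log X ^ C ∧
      c * √u * (max (u / X) (X / u)) ^ δ ≤ s * (L u - √u / zetaHalf)) ∧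
    (∃ c C : ℝ, 0 < c ∧ 0 < C ∧ ∀ᶠ X : ℝ in atTop,
      (∃ u ∈ Icc X (X * Real.log X ^ C), √u / zetaHalf + c * √u ≤ L u) ∧
      (∃ u ∈ Icc X (X * Real.log X ^ C), L u ≤ √u / zetaHalf - c * √u)) ∧
    (∀ s : ℝ, s = 1 ∨ s = -1 → ∀ K : ℝ, (∀ᶠ u : ℝ in atTop, s * L u ≤ K * F u) →
      ∃ c C : ℝ, 0 < c ∧ 0 < C ∧ ∀ᶠ X : ℝ in atTop,
        ∃ u ∈ Icc X (X * Real.log (Real.log (Real.log X)) ^ C),
          c * √u ≤ s * (L u - √u / zetaHalf)) := by
  have key : ∀ s : ℝ, s = 1 ∨ s = -1 → Pool.Agent.V8H22.OSC.Win (fun u => s * (L u - √u / zetaHalf)) := by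
    intro s hs
    have h := Pool.Agent.V8H22.OSC.la_Win hs
    have e : (fun u => s * (L u - √u / zetaHalf)) = fun u => s *
        (Pool.Agent.W190.SF Pool.Agent.R303.SW.laR u - Pool.Agent.V8H22.OSC.zh⁻¹ * √u) := by
      funext u
      rw [div_eq_inv_mul]
      rfl
    rw [e]
    exact h
  refine ⟨⟨?_, Pool.Agent.V8H22.OSC.zh_ne⟩, key, ?_, fun s hs K hK => (key s hs).cond
    (K := |K| + |zetaHalf⁻¹|) ?_⟩
  · have h1 := Pool.Agent.V8H22.OSC.FF_half
    have hne : (1 / 2 : ℂ) ≠ 1 := by norm_num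
    rw [show H353.FF (1 / 2) = (1 / 2 - 1) * riemannZeta (1 / 2) from ZU.J_g2b.FF_ne hne] at h1
    unfold zetaHalf
    push_cast at h1
    have e : Pool.Agent.V8H22.OSC.zh = (riemannZeta (1 / 2)).re := rfl
    rw [← e]
    linear_combination (-2) * h1
  · obtain ⟨c, C, h1, h2, h3⟩ := Pool.Agent.V8H22.OSC.two_signs Real.tendsto_log_atTop
      (key 1 (Or.inl rfl)).right (key (-1) (Or.inr rfl)).right
    refine ⟨c, C, h1, h2, ?_⟩
    filter_upwards [h3] with X hX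
    obtain ⟨⟨u, hu, hu1⟩, ⟨u', hu', hu2⟩⟩ := hX
    exact ⟨⟨u, hu, by linarith⟩, ⟨u', hu', by linarith⟩⟩
  · filter_upwards [hK, Pool.Agent.V8H22.OSC.l3_tendsto.eventually_ge_atTop 1, eventually_gt_atTop 0]
      with u h1 h2 h3
    have h2' : 1 ≤ Pool.Agent.V8H22.OSC.l3 u ^ (5 / 4 : ℝ) := Real.one_le_rpow h2 (by norm_num)
    have hsq : 0 ≤ √u := Real.sqrt_nonneg u
    have hF : F u = √u * Pool.Agent.V8H22.OSC.l3 u ^ (5 / 4 : ℝ) := by
      unfold F
      rw [Real.sqrt_eq_rpow]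
      rfl
    have hF0 : √u ≤ F u := by rw [hF]; exact le_mul_of_one_le_right hsq h2'
    have hF1 : 0 ≤ F u := hsq.trans hF0
    have hsz : -(s * (√u / zetaHalf)) ≤ |zetaHalf⁻¹| * √u := by
      have h4 : -(s * zetaHalf⁻¹) ≤ |zetaHalf⁻¹| := by
        rcases hs with rfl | rfl
        · rw [one_mul]; exact neg_le_abs _
        · rw [neg_one_mul, neg_neg]; exact le_abs_self _
      have := mul_le_mul_of_nonneg_right h4 hsq
      rw [div_eq_inv_mul]
      linarith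
    have hfin : s * (L u - √u / zetaHalf) ≤ (|K| + |zetaHalf⁻¹|) * F u := by
      calc s * (L u - √u / zetaHalf) = s * L u + -(s * (√u / zetaHalf)) := by ring
        _ ≤ K * F u + |zetaHalf⁻¹| * √u := add_le_add h1 hsz
        _ ≤ |K| * F u + |zetaHalf⁻¹| * F u := by
            refine add_le_add (mul_le_mul_of_nonneg_right (le_abs_self K) hF1) ?_
            exact mul_le_mul_of_nonneg_left hF0 (abs_nonneg _)
        _ = _ := by ring
    exact hfin

end Pool.Agent.Results.MP_a499ba_nt.LiouvilleShortWindows
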