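import Pool.Agent.V8H22.IW.P8

/-!
# Ingham's lower bounds for the oscillation of the Mertens function hold in every window `[X, X^(1+δ)]`

`M(x) = ∑_{n ≤ x} μ(n)`. For real `γ` let `c(γ) = 1 / (ρ ζ'(ρ))` if `ρ = 1/2 + iγ` is a simple zero of the zeta function
and `c(γ) = 0` otherwise; for `T > 0` let `h_T(v) = ∑_{|γ| < T} (1 - |γ|/T) c(γ) e^{iγv}` (a finite sum). Ingham (1942)
proved that `liminf M(x)/√x ≤ h_T(v) ≤ limsup M(x)/√x`; all the known explicit lower bounds for the oscillation of
`M(x)/√x` (Jurkat-Peyerimhoff, Odlyzko-te Riele, Hurst) come from this inequality or its variants with other positive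
definite weights. We prove unconditionally that these values are reached (up to any `ε > 0`) in **every** window
`[X, X^(1+δ)]`, `δ > 0`, `X` large, for arbitrary positive definite weights.

Proof. If the Riemann hypothesis is false or there is a multiple zero on the critical line, both `M(x)/√x` and
`-M(x)/√x` exceed any constant in every window: consider the derivatives of order `k` of the Laplace transform of
`f(u) = M(e^u) e^(-u/2)` at a point `c` far to the right, `k` about `|c - z₁| (1 + δ/2) V`, where `z₁` is a singularity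
nearest to `c`; these are moments of `f` with weight `u^k e^(-cu)` concentrated at `[V, (1+δ) V]`, and they are much
larger than the same derivatives at the real point `Re c`, from which the singularities are more distant. If the
Riemann hypothesis is true and the zeros are simple, take a nonnegative trigonometric polynomial
`P(u) = ∑ b_l e^{ilu}` with `b_0 = 1`: the moments of `(s f - κ) P` at a real point `σ`, normalised, tend to
`s ∑ b_l c(-l) - κ`. The weights are the positive definite function times the normalised number of representations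
as a difference of elements of a finite set `S` almost invariant under the translations by the ordinates.
-/

set_option autoImplicit false

open Filter Topology Set

namespace Pool.Agent.Results.MP_a499ba_nt.MertensInghamWindows

open scoped ComplexConjugate

/-- The Mertens function `M(x) = ∑_{n ≤ x} μ(n)`. -/
noncomputable def M (x : ℝ) : ℝ :=
  ∑ n ∈ Finset.Icc 1 ⌊x⌋₊, ((ArithmeticFunction.moebius n : ℤ) : ℝ)

/-- `c(γ) = 1 / (ρ ζ'(ρ))` if `ρ = 1/2 + iγ` is a zero of `ζ` (this is `0` for a multiple zero), `0` if it is not. -/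
noncomputable def c (γ : ℝ) : ℂ :=
  open Classical in
  if riemannZeta (1 / 2 + γ * Complex.I) = 0 then
    1 / ((1 / 2 + γ * Complex.I) * deriv riemannZeta (1 / 2 + γ * Complex.I)) else 0

/-- Positive definite functions on the real line (no continuity is required). -/
def PosDef (g : ℝ → ℂ) : Prop :=
  ∀ (S : Finset ℝ) (a : ℝ → ℂ), ∃ r : ℝ, 0 ≤ r ∧
    ∑ x ∈ S, ∑ y ∈ S, a x * conj (a y) * g (x - y) = (r : ℂ)

/-- Ingham's sums `h_T(v) = ∑_{|γ| < T} (1 - |γ|/T) c(γ) e^{iγv}`. -/
noncomputable def h (T v : ℝ) : ℝ :=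
  (∑' γ : ℝ, ((max (1 - |γ| / T) 0 : ℝ) : ℂ) * Complex.exp (γ * v * Complex.I) * c γ).re

/-- **Main theorem.** -/
theorem result :
    -- arbitrary positive definite weights
    (∀ g : ℝ → ℂ, PosDef g → g 0 = 1 → Summable (fun γ : ℝ => g γ * c γ) →
      ∀ δ κ s : ℝ, 0 < δ → (s = 1 ∨ s = -1) → κ < s * (∑' γ : ℝ, g γ * c γ).re →
      ∀ᶠ X : ℝ in atTop, ∃ x ∈ Icc X (X ^ (1 + δ)), κ * √x < s * M x) ∧
    -- Ingham's sums
    (∀ T : ℝ, {γ : ℝ | |γ| < T ∧ c γ ≠ 0}.Finite) ∧
    (∀ T v δ ε : ℝ, 0 < T → 0 < δ → 0 < ε → ∀ᶠ X : ℝ in atTop,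
      (∃ x ∈ Icc X (X ^ (1 + δ)), (h T v - ε) * √x < M x) ∧
      (∃ x ∈ Icc X (X ^ (1 + δ)), M x < (h T v + ε) * √x)) ∧
    -- one zero
    (∀ γ δ ε s : ℝ, 0 < γ → 0 < δ → 0 < ε → (s = 1 ∨ s = -1) →
      ∀ᶠ X : ℝ in atTop, ∃ x ∈ Icc X (X ^ (1 + δ)), (‖c γ‖ - ε) * √x < s * M x) := by
  refine ⟨fun g hg hg0 hsum δ κ s h0 hs hκ => ?_, Pool.Agent.V8H22.IW.cM_finite,
    fun T v δ ε hT h0 hε => ?_, fun γ δ ε s hγ h0 hε hs => ?_⟩
  · exact Pool.Agent.V8H22.IW.final1 Pool.Agent.V8H22.IW.mu_MD
      (fun h => absurd h Pool.Agent.V8H22.IW.mu_D0) Pool.Agent.V8H22.IW.cf_M hg hg0 hsum h0 hs hκ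
  · exact Pool.Agent.V8H22.IW.final2 Pool.Agent.V8H22.IW.mu_MD
      (fun h => absurd h Pool.Agent.V8H22.IW.mu_D0) Pool.Agent.V8H22.IW.cf_M
      Pool.Agent.V8H22.IW.cM_finite v hT h0 hε
  · have h1 := Pool.Agent.V8H22.IW.final3 Pool.Agent.V8H22.IW.mu_MD
      (fun h => absurd h Pool.Agent.V8H22.IW.mu_D0) Pool.Agent.V8H22.IW.aM_conj
      Pool.Agent.V8H22.IW.dM_conj Pool.Agent.V8H22.IW.cf_M hγ h0 hε hs
    rw [Pool.Agent.V8H22.IW.cM_zero] at h1
    simp only [Complex.zero_re, mul_zero, zero_add] at h1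
    exact h1

end Pool.Agent.Results.MP_a499ba_nt.MertensInghamWindows
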