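import Pool.Agent.V8H22.OSC.Z7

/-!
# Both signs of the Mertens function in the windows `[X, X (log X)^C]`

`M(u) = ∑_{n ≤ u} μ(n)`, `F(u) = u^(1/2) (log log log u)^(5/4)`. Unconditionally:

1. For either sign `s` there are constants `c, δ, C > 0` such that for all large `X` there is `u` with
   `X / (log X)^C ≤ u ≤ X (log X)^C` and `s M(u) ≥ c √u max(u/X, X/u)^δ`.
2. There are constants `c, C > 0` such that for all large `X` the interval `[X, X (log X)^C]` contains `u₁`, `u₂`
   with `M(u₁) ≥ c √u₁` and `M(u₂) ≤ - c √u₂`.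
3. If `s M(u) ≤ K F(u)` for all large `u` (one half of what Q1 asks), then for some `c, C > 0` and all large `X` there
   is `u` with `X ≤ u ≤ X (log log log X)^C` and `s M(u) ≥ c √u`.

The best earlier windows are those of Pintz (Oscillatory properties of `M(x)`, III, 1984), of the form
`[X, X exp(5 (log log X)^(3/2))]`.

Proof. If the Riemann hypothesis is false, much stronger one-sided results hold (starting files). Let it be true,
`f(v) = M(e^v) e^(-v/2)`, and let `f_θ` be the convolution of `f` with the Gaussian of variance `θ`. Put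
`J = ∫ |f_θ(V+t)| e^(-τ|t|) dt`. The function `(z-1/2) ζ(z+1/2) (e^(zV+θz²/2)/((z+1/2) ζ(z+1/2)) - ∫_{t<0} f_θ(V+t) e^(-zt) dt)`
is holomorphic in the strip `|Re z| ≤ τ`, is bounded on the two boundary lines by a power of `|z|` times `J + e^(-τV)`,
and has absolute value `≍ 1` at `z = iγ` for a zero `1/2 + iγ` (where the second term vanishes). By the
Phragmén-Lindelöf principle `J ≫ 1`; also the one-sided Laplace transforms of `f_θ(V+·)` are `≪ |z|^A J` on the lines
`Re z = ± τ/4`. Hence one more Gaussian smoothing with variance `V^(-2)` gives a function `≪ V^A J e^(τ|t|/4)`. As `J`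
is at most `e^V` and at least a constant, among the `V` first smoothings there is one for which the mass outside
`|t| ≤ C log V` is negligible in `J` (pigeonhole principle). For this `θ` the function `f_θ(V+·)` is nearly orthogonal
to a positive function `w ≍ e^(-τ|t|)`, because it has no frequencies near `0` (shift of the lines of integration in
`|Im z| ≤ δ`), whereas `∫ |f_θ(V+t)| w(t) dt ≫ J ≫ 1`. So the positive and the negative part of `f_θ` are both large.
-/

set_option autoImplicit false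

open Filter Topology Set

namespace Pool.Agent.Results.MP_a499ba_nt.MertensShortWindows

/-- The Mertens function `M(u) = ∑_{n ≤ u} μ(n)`. -/
noncomputable def M (u : ℝ) : ℝ :=
  ∑ n ∈ Finset.Icc 1 ⌊u⌋₊, ((ArithmeticFunction.moebius n : ℤ) : ℝ)

/-- `F(u) = u^(1/2) (log log log u)^(5/4)`. -/
noncomputable def F (u : ℝ) : ℝ := u ^ (1 / 2 : ℝ) * Real.log (Real.log (Real.log u)) ^ (5 / 4 : ℝ)

/-- **Main theorem.** -/
theorem result :
    (∀ s : ℝ, s = 1 ∨ s = -1 → ∃ c δ C : ℝ, 0 < c ∧ 0 < δ ∧ 0 < C ∧ ∀ᶠ X : ℝ in atTop, ∃ u : ℝ,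
      X / Real.log X ^ C ≤ u ∧ u ≤ X * Real.log X ^ C ∧
      c * √u * (max (u / X) (X / u)) ^ δ ≤ s * M u) ∧
    (∃ c C : ℝ, 0 < c ∧ 0 < C ∧ ∀ᶠ X : ℝ in atTop,
      (∃ u ∈ Icc X (X * Real.log X ^ C), c * √u ≤ M u) ∧
      (∃ u ∈ Icc X (X * Real.log X ^ C), M u ≤ -(c * √u))) ∧
    (∀ s : ℝ, s = 1 ∨ s = -1 → ∀ K : ℝ, (∀ᶠ u : ℝ in atTop, s * M u ≤ K * F u) →
      ∃ c C : ℝ, 0 < c ∧ 0 < C ∧ ∀ᶠ X : ℝ in atTop,
        ∃ u ∈ Icc X (X * Real.log (Real.log (Real.log X)) ^ C), c * √u ≤ s * M u) := by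
  refine ⟨fun s hs => Pool.Agent.V8H22.OSC.mu_Win hs, ?_, fun s hs K hK =>
    (Pool.Agent.V8H22.OSC.mu_Win hs).cond hK⟩
  obtain ⟨c, C, h1, h2, h3⟩ := Pool.Agent.V8H22.OSC.two_signs Real.tendsto_log_atTop
    (Pool.Agent.V8H22.OSC.mu_Win (Or.inl rfl)).right
    (Pool.Agent.V8H22.OSC.mu_Win (Or.inr rfl)).right
  refine ⟨c, C, h1, h2, ?_⟩
  filter_upwards [h3] with X hX
  obtain ⟨⟨u, hu, hu1⟩, ⟨u', hu', hu2⟩⟩ := hX
  refine ⟨⟨u, hu, ?_⟩, ⟨u', hu', ?_⟩⟩
  · rw [one_mul] at hu1
    exact hu1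
  · have : c * √u' ≤ -1 * M u' := hu2
    linarith

end Pool.Agent.Results.MP_a499ba_nt.MertensShortWindows
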